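import Pool.Agent.W206.YP.Stm
import Pool.Agent.H294ZP.TBproof
import Pool.Agent.H294ZP.TaskTA2
import Pool.Agent.H294ZP.TA1

set_option autoImplicit false

open UpperHalfPlane ModularForm Function Filter Topology Matrix.SpecialLinearGroup H294ZP

open scoped MatrixGroups ModularForm Manifold

namespace Pool.Agent.W349.YP.SURJ

/-- An invariant holomorphic function with a limit at infinity is constant. -/
theorem const_of_lim (f : ℍ → ℂ) (A : ℂ) (hI : Inv f) (hH : Hol f)
    (hlim : Tendsto f atImInfty (𝓝 A)) : ∀ τ, f τ = A := by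
  have hslash : ∀ γ : SL(2, ℤ), f ∣[(0 : ℤ)] γ = f := by
    intro γ
    ext τ
    rw [SL_slash_apply]
    simp only [neg_zero, zpow_zero, mul_one]
    have hdet := γ.det_coe
    rw [Matrix.det_fin_two] at hdet
    apply hI (γ 0 0) (γ 0 1) (γ 1 0) (γ 1 1) hdet τ (γ • τ)
    rw [coe_specialLinearGroup_apply]
    have hd : ((γ 1 0 : ℤ) : ℂ) * (τ : ℂ) + ((γ 1 1 : ℤ) : ℂ) ≠ 0 := by
      have := denom_ne_zero γ τ
      simpa [denom] using this
    simp only [eq_intCast, Complex.ofReal_intCast]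
    rw [div_mul_cancel₀ _ hd]
  let g : ModularForm 𝒮ℒ 0 :=
    { toFun := f
      slash_action_eq' := by
        rintro _ ⟨γ, rfl⟩
        exact hslash γ
      holo' := mdifferentiable_iff.2 hH
      bdd_at_cusps' := by
        intro c hc
        rw [OnePoint.isBoundedAt_iff_forall_SL2Z hc]
        intro γ _
        rw [hslash γ]
        exact hlim.isBigO_one ℝ }
  obtain ⟨c, hc⟩ := ModularFormClass.levelOne_weight_zero_const g
  have hf : f = Function.const ℍ c := hc
  have hcA : c = A := by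
    rw [hf] at hlim
    exact tendsto_nhds_unique tendsto_const_nhds hlim
  intro τ
  rw [hf, ← hcA]; rfl

theorem main : Pool.Agent.W206.YP.S_SURJ := by
  intro x
  by_contra hx
  push Not at hx
  have hne : ∀ τ : ℍ, jj τ - x ≠ 0 := fun τ => sub_ne_zero.2 (hx τ)
  let f : ℍ → ℂ := fun τ => (jj τ - x)⁻¹
  have hI : Inv f := by
    intro a b c d hdet τ w hw
    show (jj w - x)⁻¹ = (jj τ - x)⁻¹
    rw [H294ZP.inv_jj a b c d hdet τ w hw]
  have hH : Hol f := by
    have h1 : DifferentiableOn ℂ (fun z => (jj ∘ ofComplex) z - x) {z : ℂ | 0 < z.im} :=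
      DifferentiableOn.sub_const H294ZP.hol_jj x
    exact h1.inv fun z _ => hne _
  have hl1 : Tendsto (fun τ => qq 1 τ ^ 1 * jj τ) atImInfty (𝓝 1) :=
    H294ZP.TBproof.lau_limit 1 1 1 jj one_pos H294ZP.ta2
  have hl0 : Tendsto (qq 1) atImInfty (𝓝 0) := H294ZP.TBproof.tendsto_qq 1 one_pos
  have hl2 : Tendsto (fun τ => qq 1 τ ^ 1 * jj τ - qq 1 τ * x) atImInfty (𝓝 (1 - 0 * x)) :=
    hl1.sub (hl0.mul_const x)
  have hlim : Tendsto f atImInfty (𝓝 0) := by
    have h3 := hl0.div hl2 (by simp)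
    rw [zero_div] at h3
    refine h3.congr fun τ => ?_
    show qq 1 τ / (qq 1 τ ^ 1 * jj τ - qq 1 τ * x) = (jj τ - x)⁻¹
    have hq := H294ZP.TBproof.qq_ne_zero 1 τ
    have h4 : qq 1 τ ^ 1 * jj τ - qq 1 τ * x = qq 1 τ * (jj τ - x) := by ring
    rw [h4, div_mul_eq_div_div, div_self hq, one_div]
  have h5 := const_of_lim f 0 hI hH hlim I
  exact inv_ne_zero (hne I) h5

end Pool.Agent.W349.YP.SURJ
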